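import Pool.Agent.H526E.Eight

/-!
# A prime-representing polynomial in eight variables (MP_90a715_lc, question Q1)

For an odd number `p ≥ 3` and a large integer `V`, `p` is prime iff
`x_p(V) (1 + p / V)^(1/p) + 1/p` is very near to an integer `a`, where `x_p(V)` is the Pell number
(the Chebyshev value `T_p(V)`).  Raised to the power `p` this says that
`y_{p+1}(a) (1 - 1/a)` is very near to `2 x_{p^2}(V) (1 + p / V)`.  With `p = t + 2`, `b = 8 p^2`,
`V = (b - 1)(v + 1)`, `a = V + c`, `X = p + 1 + k (a - 1)`, `Z = 2 (p^2 + z) + 1` this is expressed by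
three perfect squares (the growth condition `(b^2 - 1) V^2 + 1`, the Pell condition
`(a^2 - 1) X^2 + 1`, and the product of three factors which forces `Z = y_{p^2}(V)`, with two further
variables `x, y`) and one strict inequality, combined with one extra variable `m`; the condition `Z`
odd excludes even `p`, and the factor `t` gives the prime `2`.
-/

set_option autoImplicit false

namespace Pool.Agent.Results.MP_90a715_lc.EightVariables

open MvPolynomial Pool.Agent.H526E

/-- `P ∈ ℤ[X_1, …, X_n]` is prime-representing: the set of its positive values at vectors of natural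
numbers `ℕ = {0, 1, 2, …}` is the set of prime numbers. -/
def PrimeRepresenting {n : ℕ} (P : MvPolynomial (Fin n) ℤ) : Prop :=
  {r : ℤ | ∃ a : Fin n → ℕ, eval (fun i => (a i : ℤ)) P = r ∧ 0 < r} =
    {r : ℤ | ∃ p : ℕ, p.Prime ∧ r = p}

/-- `n_min`, the least number of variables of a prime-representing polynomial. -/
noncomputable def nMin : ℕ := sInf {n : ℕ | ∃ P : MvPolynomial (Fin n) ℤ, PrimeRepresenting P}

/-- The polynomial in eight variables. -/
noncomputable def primePoly : MvPolynomial (Fin 8) ℤ :=
  eP (X 0) (X 1) (X 2) (X 3) (X 4) (X 5) (X 6) (X 7)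

theorem eval_primePoly (a : Fin 8 → ℤ) :
    eval a primePoly = eP (a 0) (a 1) (a 2) (a 3) (a 4) (a 5) (a 6) (a 7) := by
  unfold primePoly
  rw [eP_map (eval a)]
  simp only [eval_X]

theorem primeRepresenting_primePoly : PrimeRepresenting primePoly := by
  ext r
  constructor
  · rintro ⟨a, ha, hr⟩
    rw [eval_primePoly] at ha
    unfold eP at ha
    obtain ⟨M, hM⟩ : ∃ M, M = eM (a 0 : ℤ) (a 1) (a 2) (a 3) (a 4) (a 5) (a 6) (a 7) :=
      ⟨_, rfl⟩
    rw [← hM] at ha
    have h0 : (a 0 : ℤ) * M = 0 := by
      by_contra hne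
      have h1 : 1 ≤ ((a 0 : ℤ) * M) ^ 2 := by
        have h2 : 0 < ((a 0 : ℤ) * M) ^ 2 := by positivity
        omega
      have h3 : ((a 0 : ℤ) + 2) * (1 - ((a 0 : ℤ) * M) ^ 2) ≤ 0 :=
        mul_nonpos_of_nonneg_of_nonpos (by positivity) (by linarith)
      linarith
    refine ⟨a 0 + 2, ?_, ?_⟩
    · rcases Nat.eq_zero_or_pos (a 0) with hz | hz
      · rw [hz]; exact Nat.prime_two
      · have hM0 : M = 0 := by
          rcases mul_eq_zero.1 h0 with h | h
          · exfalso
            have : a 0 = 0 := by exact_mod_cast h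
            omega
          · exact h
        rw [hM] at hM0
        exact eight_sound hz hM0
    · rw [← ha, h0]
      push_cast
      ring
  · rintro ⟨p, hp, rfl⟩
    have hpos : (0 : ℤ) < (p : ℤ) := by exact_mod_cast hp.pos
    obtain ⟨t, rfl⟩ : ∃ t, p = t + 2 := ⟨p - 2, by have := hp.two_le; omega⟩
    rcases Nat.eq_zero_or_pos t with hz | hz
    · subst hz
      refine ⟨fun _ => 0, ?_, hpos⟩
      rw [eval_primePoly]
      unfold eP
      simp
    · obtain ⟨v, c, k, z, x, y, m, hM⟩ := eight_complete hz hp
      refine ⟨![t, v, c, k, z, x, y, m], ?_, hpos⟩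
      rw [eval_primePoly]
      change eP (t : ℤ) v c k z x y m = _
      unfold eP
      rw [hM]
      push_cast
      ring

/-- **Main result.** There is a prime-representing polynomial in `8` variables, so `n_min ≤ 8`. -/
theorem result : (∃ P : MvPolynomial (Fin 8) ℤ, PrimeRepresenting P) ∧ nMin ≤ 8 :=
  ⟨⟨primePoly, primeRepresenting_primePoly⟩, Nat.sInf_le ⟨primePoly, primeRepresenting_primePoly⟩⟩

end Pool.Agent.Results.MP_90a715_lc.EightVariables
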